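import Pool.Agent.TH375.ES.Val

/-! # Sizes as mean values -/

set_option autoImplicit false

namespace Pool.Agent.TH375.ES

open Complex Filter Topology ComplexConjugate NumberField IsDedekindDomain Polynomial
  Pool.Agent.W401.Cheb Pool.Agent.W540.BE Pool.Agent.W353.L1 Pool.Agent.W353.AT
  Pool.Agent.W353.SP
open Pool.Agent.W353.NF (act fixn fixn_le TT size_fix cz vx abs_cz size_EF syE_real)
open Pool.Agent.W353.TP (HX)
open Pool.Agent.W353.AB (syE LE)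
open Pool.Agent.H341R2.EC (IsMinAt)
open Pool.Agent.H341R2 (lam lam_tendsto)

section
variable {K : Type} [Field K] [NumberField K]

/-- the value at the height `τ` -/
noncomputable def tz (W : WeierstrassCurve (𝓞 K)) (τ : ℝ) (v : HeightOneSpectrum (𝓞 K)) : ℝ :=
  tv W v * cz τ v

theorem abs_tz (W : WeierstrassCurve (𝓞 K)) (τ : ℝ) (v : HeightOneSpectrum (𝓞 K)) :
    |tz W τ v| ≤ 2 := by
  unfold tz
  rw [abs_mul]
  calc |tv W v| * |cz τ v| ≤ 2 * 1 :=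
        mul_le_mul (abs_tv W v) (abs_cz τ v) (abs_nonneg _) (by norm_num)
    _ = 2 := mul_one _

/-- the sizes over `F` -/
theorem sizeF (W : WeierstrassCurve (𝓞 K)) (hΔ : W.Δ ≠ 0) {F : Type} [Field F] [NumberField F]
    [Algebra K F] (V : HeightOneSpectrum (𝓞 F) → WeierstrassCurve (𝓞 F))
    (hV : ∀ v, IsMinAt ((W.map (algebraMap (𝓞 K) K)).map (algebraMap K F)) v (V v)) (τ : ℝ)
    (σ : HeightOneSpectrum (𝓞 K) → GK K) (hσ : ∀ v, IsFrob v (σ v)) :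
    (∀ᶠ ε : ℝ in 𝓝[>] 0, LE V (3 / 2 + τ * I + ε) ≠ 0) ∧
    Tendsto (fun ε : ℝ => ED K ε (fun v => tz W τ v * fixn K F (σ v)) -
      Real.log ‖LE V (3 / 2 + τ * I + ε)‖ / Real.log (1 / ε)) (𝓝[>] 0) (𝓝 0) := by
  have hP : ((W.c₄ : 𝓞 K) : K) = ((1 : 𝓞 K) : K) ^ 4 * (W.map (algebraMap (𝓞 K) K)).c₄ := by
    rw [WeierstrassCurve.map_c₄]
    simp
  have hQ : ((W.c₆ : 𝓞 K) : K) = ((1 : 𝓞 K) : K) ^ 6 * (W.map (algebraMap (𝓞 K) K)).c₆ := by
    rw [WeierstrassCurve.map_c₆]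
    simp
  obtain ⟨h1, h2⟩ := size_EF (F := F) (W.map (algebraMap (𝓞 K) K)) (one_ne_zero (α := 𝓞 K))
    hP hQ (disc_ne hΔ) V hV τ
  refine ⟨h1, ?_⟩
  have h3 := size_fix _ (syE_real _ _) σ hσ h2
  have h4 := sz_diff (T' := tv W) (TT_tv W) h3 (by
    refine Bd.mul (f := fun v => tv W v) (g := fun v => (fixn K F (σ v) : ℝ) * cz τ v)
      ⟨2, abs_tv W⟩ ?_
    exact (bd_fixn σ).mul ⟨1, fun v => abs_cz _ _⟩)
  refine h4.congr fun ε => ?_
  have e : (fun v => tv W v * ((fixn K F (σ v) : ℝ) * cz τ v)) =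
      fun v => tz W τ v * fixn K F (σ v) := by
    funext v
    unfold tz
    ring
  rw [e]

/-- changing finitely many values -/
theorem ED_fin {f g : HeightOneSpectrum (𝓞 K) → ℝ} (hf : Bd f) (hg : Bd g)
    (h : ∀ᶠ v in cofinite, f v = g v) :
    Tendsto (fun ε => ED K ε f - ED K ε g) (𝓝[>] 0) (𝓝 0) := by
  have hfg : Bd fun v => f v + -g v := hf.add hg.neg
  have h1 := (mnD K).fin (fun v => f v + -g v) hfg (by
    rw [Filter.eventually_cofinite] at h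
    refine h.subset fun v hv => ?_
    rw [Set.mem_ofPred_eq] at hv ⊢
    intro hcon
    apply hv
    rw [hcon]
    ring)
  refine h1.congr' ?_
  filter_upwards [(mnD K).add g (fun v => f v + -g v) hg hfg] with ε hε
  have e : (fun v => g v + (f v + -g v)) = f := by
    funext v
    ring
  rw [e] at hε
  linarith

/-- the sizes of the Artin twists -/
theorem sizeA (W : WeierstrassCurve (𝓞 K)) (hΔ : W.Δ ≠ 0) {n : ℕ}
    (ρ : Representation ℂ (GK K) (Fin n → ℂ)) (hρ : IsArtin ρ) (τ : ℝ)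
    (B : HeightOneSpectrum (𝓞 K) → ℂ[X])
    (hB : ∀ᶠ v in cofinite, ∀ σ : GK K, IsFrob v σ → ∀ z : ℂ,
      (B v).eval z = LinearMap.det (1 - ((trv W v : ℂ) * z) • ρ σ⁻¹ +
        (((nm K v : ℕ) : ℂ) * z ^ 2) • (ρ σ⁻¹) ^ 2))
    (hB0 : ∀ v, (B v).eval (((nm K v : ℕ) : ℂ) ^ (-(3 / 2 + τ * I : ℂ))) ≠ 0)
    (L : ℂ → ℂ)
    (hL : ∀ s : ℂ, 3 / 2 < s.re → L s = ∏' v, ((B v).eval (((nm K v : ℕ) : ℂ) ^ (-s)))⁻¹)
    (σ : HeightOneSpectrum (𝓞 K) → GK K) (hσ : ∀ v, IsFrob v (σ v)) :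
    (∀ᶠ ε : ℝ in 𝓝[>] 0, L (3 / 2 + τ * I + ε) ≠ 0) ∧
    Tendsto (fun ε : ℝ => ED K ε (fun v => tv W v * RR ρ τ σ v) -
      Real.log ‖L (3 / 2 + τ * I + ε)‖ / Real.log (1 / ε)) (𝓝[>] 0) (𝓝 0) := by
  obtain ⟨U, hUn, hU, hx1⟩ := exists_common (κ := Unit) (n := fun _ => n)
    (fun _ => ρ) fun _ => hρ
  have hfin : Finite (GK K ⧸ U) := Subgroup.quotient_finite_of_isOpen U hU
  obtain ⟨α, ha, hb, hc⟩ := ec_eig W hΔ
  have hs : ∀ x : ℝ, (((1 / 2 : ℝ) : ℂ) + 1 + x * I) = 3 / 2 + x * I := by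
    intro x
    push_cast
    ring
  have hreal : ∀ᶠ v in cofinite, (∑ j, α v j).im = 0 := hb.mono fun v hv => by
    rw [hv, Complex.intCast_im]
  have hr : (1 / 2 : ℝ) + 1 = 3 / 2 := by norm_num
  have h := size_corr (1 / 2) α ha hreal U ρ (hx1 ()) τ B (hc n ρ B hB)
    (by
      intro v
      rw [hs]
      exact hB0 v) L (by
      intro s hs'
      rw [hr] at hs'
      exact hL s hs') σ hσ
  simp only [hs] at h
  refine ⟨h.1, ?_⟩
  have hbd : Bd fun v => RR ρ τ σ v := ⟨n, fun v => abs_RR_le U ρ (hx1 ()) τ σ v⟩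
  have h1 : Tendsto (fun ε => ED K ε (fun v => tv W v * RR ρ τ σ v) -
      ED K ε (fun v => tr (1 / 2) α v * RR ρ τ σ v)) (𝓝[>] 0) (𝓝 0) := by
    refine ED_fin (Bd.mul (f := fun v => tv W v) ⟨2, abs_tv W⟩ hbd)
      (Bd.mul (f := fun v => tr (1 / 2) α v) ⟨2, fun v => abs_tr_le _ _ _⟩ hbd) ?_
    filter_upwards [tv_eq hΔ, ha, hb, hreal] with v h1 h2 h3 h4
    congr 1
    have h5 : tr (1 / 2) α v = (∑ j, α v j).re * (nm K v : ℝ) ^ (-(1 / 2) : ℝ) := by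
      unfold tr
      rw [if_pos ⟨h2, h4⟩]
    rw [h5, h1, h3, Complex.intCast_re, Real.sqrt_eq_rpow, Real.rpow_neg (Nat.cast_nonneg _)]
  have h2 := h1.add h.2
  rw [add_zero] at h2
  refine h2.congr fun ε => ?_
  have e : (fun v => ((tr (1 / 2) α v : ℂ) * (ρ.character (σ v)⁻¹ * zz τ v)).re) =
      fun v => tr (1 / 2) α v * RR ρ τ σ v := by
    funext v
    rw [Complex.re_ofReal_mul]
    rfl
  rw [e]
  unfold ED
  ring

/-- the two heights `τ` and `-τ` together -/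
theorem RR_pair {n : ℕ} (ρ : Representation ℂ (GK K) (Fin n → ℂ)) (τ : ℝ)
    (σ : HeightOneSpectrum (𝓞 K) → GK K) (v : HeightOneSpectrum (𝓞 K)) :
    RR ρ τ σ v + RR ρ (-τ) σ v = 2 * (RR ρ 0 σ v * cz τ v) := by
  have h0 : zz (F := K) 0 v = 1 := by
    unfold zz
    rw [Complex.ofReal_zero, zero_mul, neg_zero, Complex.cpow_zero]
  have h1 : zz (F := K) (-τ) v = conj (zz τ v) := by
    unfold zz
    have h2 : ((nm K v : ℕ) : ℂ) = ((nm K v : ℝ) : ℂ) := by push_cast; rfl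
    have h3 : (0 : ℝ) < nm K v := by
      have := two_le_nm v
      exact_mod_cast (by omega : 0 < nm K v)
    rw [h2, Complex.cpow_def_of_ne_zero (by exact_mod_cast h3.ne'),
      Complex.cpow_def_of_ne_zero (by exact_mod_cast h3.ne'), ← Complex.exp_conj]
    congr 1
    rw [← Complex.ofReal_log h3.le, map_mul, map_neg, map_mul, Complex.conj_I,
      Complex.conj_ofReal, Complex.conj_ofReal]
    push_cast
    ring
  unfold RR cz
  rw [h0, h1, mul_one, Complex.mul_re, Complex.mul_re, Complex.conj_re, Complex.conj_im]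
  ring

end

end Pool.Agent.TH375.ES
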