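import Pool.Agent.W353.SP.Main
import Pool.Agent.W353.NF.EC
import Pool.Agent.W353.L1.EC

/-!
# The normalised Frobenius traces of an elliptic curve

The sizes of the `L`-functions over all number fields and of all Artin twists are generalised mean
values of one real function with values in `[-2, 2]` on the primes of the base field.
-/

set_option autoImplicit false

namespace Pool.Agent.TH375.ES

open Complex Filter Topology ComplexConjugate NumberField IsDedekindDomain Polynomial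
  Pool.Agent.W401.Cheb Pool.Agent.W540.BE Pool.Agent.W353.L1 Pool.Agent.W353.AT
  Pool.Agent.W353.SP
open Pool.Agent.W353.NF (act fixn fixn_le TT size_fix cz vx abs_cz size_EF syE_real)
open Pool.Agent.W353.TP (HX)
open Pool.Agent.W353.AB (syE tEH tE LE norm_tE tE_ker)
open Pool.Agent.H341R2.EC (twist IsModel IsMinAt csumv count_good)
open Pool.Agent.H341R2 (lam lam_tendsto)

section
variable {K : Type} [Field K] [NumberField K]

/-- the normalised trace of Frobenius -/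
noncomputable def tv (W : WeierstrassCurve (𝓞 K)) (v : HeightOneSpectrum (𝓞 K)) : ℝ :=
  (tE W.c₄ W.c₆ v).re

theorem abs_tv (W : WeierstrassCurve (𝓞 K)) (v : HeightOneSpectrum (𝓞 K)) : |tv W v| ≤ 2 :=
  (Complex.abs_re_le_norm _).trans (norm_tE _ _ v)

theorem TT_tv (W : WeierstrassCurve (𝓞 K)) (x : HX K) : TT (syE W.c₄ W.c₆) x = tv W (vx x) := by
  rcases x with ⟨p, φ⟩
  have h1 := tE_ker (RingHom.id (𝓞 K)) W.c₄ W.c₆ p φ
  rw [RingHom.comp_id] at h1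
  have h2 : TT (syE W.c₄ W.c₆) ⟨p, φ⟩ =
      ∑ _j ∈ ({()} : Finset Unit), (tEH W.c₄ W.c₆ ⟨p, φ⟩).re := rfl
  rw [h2, Finset.sum_singleton, ← h1]
  rfl

theorem disc_ne {W : WeierstrassCurve (𝓞 K)} (hΔ : W.Δ ≠ 0) : W.c₄ ^ 3 - W.c₆ ^ 2 ≠ 0 := by
  rw [← W.c_relation]
  exact mul_ne_zero (by norm_num) hΔ

/-- the relation of the traces to the numbers of points -/
theorem tv_eq {W : WeierstrassCurve (𝓞 K)} (hΔ : W.Δ ≠ 0) :
    ∀ᶠ v in cofinite, tv W v = (trv W v : ℝ) * (Real.sqrt (nm K v))⁻¹ := by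
  have h6 : (6 : 𝓞 K) ≠ 0 := by norm_num
  have hgood : ∀ᶠ v : HeightOneSpectrum (𝓞 K) in cofinite,
      (6 : 𝓞 K) ∉ v.asIdeal ∧ W.c₄ ^ 3 - W.c₆ ^ 2 ∉ v.asIdeal ∧ W.Δ ∉ v.asIdeal := by
    rw [Filter.eventually_cofinite]
    refine (((finite_mem_prime h6).union (finite_mem_prime (disc_ne hΔ))).union
      (finite_mem_prime hΔ)).subset fun v hv => ?_
    rw [Set.mem_ofPred_eq, not_and_or, not_and_or, not_not, not_not, not_not] at hv
    rcases hv with h | h | h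
    · exact Or.inl (Or.inl h)
    · exact Or.inl (Or.inr h)
    · exact Or.inr h
  filter_upwards [hgood] with v hv
  obtain ⟨h1, h2, h3⟩ := hv
  have hl : (1 : 𝓞 K) ≠ 0 := one_ne_zero
  have hP : ((W.c₄ : 𝓞 K) : K) = ((1 : 𝓞 K) : K) ^ 4 * (W.map (algebraMap (𝓞 K) K)).c₄ := by
    rw [WeierstrassCurve.map_c₄]
    simp
  have hQ : ((W.c₆ : 𝓞 K) : K) = ((1 : 𝓞 K) : K) ^ 6 * (W.map (algebraMap (𝓞 K) K)).c₆ := by
    rw [WeierstrassCurve.map_c₆]
    simp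
  have hmin : IsMinAt (W.map (algebraMap (𝓞 K) K)) v W := by
    refine ⟨⟨1, one_smul _ _⟩, fun V _ n hn => ?_⟩
    rcases Nat.eq_zero_or_pos n with h | h
    · subst h
      rw [pow_zero, Ideal.one_eq_top]
      exact Submodule.mem_top
    · exact absurd (Ideal.pow_le_self (by omega) hn) h3
  have hmin' : IsMinAt (twist (W.map (algebraMap (𝓞 K) K)) ((1 : 𝓞 K) : K)) v W := by
    have e : ((1 : 𝓞 K) : K) = 1 := map_one (algebraMap (𝓞 K) K)
    rw [e]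
    exact Pool.Agent.W353.NF.isMinAt_one _ v W hmin
  have h4 := (count_good hl hP hQ hmin' h1 (fun h => v.isPrime.ne_top
    ((Ideal.eq_top_iff_one _).2 h)) h2).2
  rw [Pool.Agent.W353.PV.chi_one, one_mul] at h4
  have h6' : (affCount (redv W v) : ℤ) = (Pool.Agent.H341R2.EC.aff
      (Pool.Agent.H341R2.EC.red v W) : ℤ) := rfl
  have h7 : trv W v = -csumv W.c₄ W.c₆ v := by
    unfold trv
    rw [h6', h4]
    have : (Ideal.absNorm v.asIdeal : ℤ) = (Pool.Agent.H921R2.TatePole.nm v : ℤ) := rfl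
    rw [this]
    ring
  unfold tv tE
  rw [if_pos ⟨h1, h2⟩, h7]
  have h8 : (-(csumv W.c₄ W.c₆ v : ℂ) *
      ((Real.sqrt (Pool.Agent.H921R2.TatePole.nm v) : ℝ) : ℂ)⁻¹) =
      ((-(csumv W.c₄ W.c₆ v : ℝ) * (Real.sqrt (Pool.Agent.H921R2.TatePole.nm v))⁻¹ : ℝ) : ℂ) := by
    push_cast
    rfl
  rw [h8, Complex.ofReal_re]
  push_cast
  rfl

/-- the Frobenius eigenvalues, for all Artin twists together -/
theorem ec_eig (W : WeierstrassCurve (𝓞 K)) (hΔ : W.Δ ≠ 0) :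
    ∃ α : HeightOneSpectrum (𝓞 K) → Fin 2 → ℂ,
      (∀ᶠ v in cofinite, ∀ j, ‖α v j‖ = (nm K v : ℝ) ^ (1 / 2 : ℝ)) ∧
      (∀ᶠ v in cofinite, (∑ j, α v j) = (trv W v : ℂ)) ∧
      ∀ (n : ℕ) (ρ : Representation ℂ (GK K) (Fin n → ℂ))
        (B : HeightOneSpectrum (𝓞 K) → Polynomial ℂ),
        (∀ᶠ v in cofinite, ∀ σ : GK K, IsFrob v σ → ∀ z : ℂ,
          (B v).eval z = LinearMap.det (1 - ((trv W v : ℂ) * z) • ρ σ⁻¹ +
            (((nm K v : ℕ) : ℂ) * z ^ 2) • (ρ σ⁻¹) ^ 2)) →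
        ∀ᶠ v in cofinite, ∀ σ : GK K, IsFrob v σ → ∀ z : ℂ,
          (B v).eval z = ∏ j, LinearMap.det (1 - (α v j * z) • ρ σ⁻¹) := by
  have h6 : (6 : 𝓞 K) ≠ 0 := by norm_num
  have hgood : ∀ᶠ v : HeightOneSpectrum (𝓞 K) in cofinite,
      (6 : 𝓞 K) ∉ v.asIdeal ∧ W.Δ ∉ v.asIdeal := by
    rw [Filter.eventually_cofinite]
    refine ((finite_mem_prime h6).union (finite_mem_prime hΔ)).subset fun v hv => ?_
    rw [Set.mem_ofPred_eq, not_and_or, not_not, not_not] at hv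
    exact hv
  have hex : ∀ v : HeightOneSpectrum (𝓞 K), ∃ α : Fin 2 → ℂ,
      ((6 : 𝓞 K) ∉ v.asIdeal ∧ W.Δ ∉ v.asIdeal) →
        (∀ j, ‖α j‖ = (nm K v : ℝ) ^ (1 / 2 : ℝ)) ∧ α 0 + α 1 = (trv W v : ℂ) ∧
          α 0 * α 1 = ((nm K v : ℕ) : ℂ) := by
    intro v
    by_cases h : (6 : 𝓞 K) ∉ v.asIdeal ∧ W.Δ ∉ v.asIdeal
    · have hpos : (0 : ℝ) < nm K v := by
        have := two_le_nm v
        exact_mod_cast (by omega : 0 < nm K v)
      obtain ⟨α, h1, h2, h3⟩ := exists_roots hpos (hasse_v W v h.1 h.2)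
      refine ⟨α, fun _ => ⟨h1, ?_, ?_⟩⟩
      · rw [h2]; simp
      · rw [h3]; simp
    · exact ⟨0, fun h' => absurd h' h⟩
  choose α hα using hex
  refine ⟨α, hgood.mono fun v hv => (hα v hv).1, hgood.mono fun v hv => ?_, fun n ρ B hB => ?_⟩
  · rw [Fin.sum_univ_two, (hα v hv).2.1]
  · filter_upwards [hgood, hB] with v h1 h2
    intro σ hσ z
    rw [det_two, (hα v h1).2.1, (hα v h1).2.2]
    exact h2 σ hσ z

end

end Pool.Agent.TH375.ES
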